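import Mathlib

/-!
# Logarithmic sums of completely multiplicative functions close to `1`
-/

set_option autoImplicit false

namespace Pool.Agent.E8helper48.TP

open Filter Topology Finset

/-- the sum of `f n / n` over `n ≤ x` -/
noncomputable def lsum (f : ℕ → ℂ) (x : ℝ) : ℂ := ∑ n ∈ Icc 0 ⌊x⌋₊, f n / n

/-- `∑_{n ≤ x} f n / n = R log x + C + o(1)` -/
def Asy (f : ℕ → ℂ) (R C : ℂ) : Prop :=
  Tendsto (fun x : ℝ => lsum f x - (R * Real.log x + C)) atTop (𝓝 0)

lemma lsum_of_lt_one (f : ℕ → ℂ) {x : ℝ} (hx : x < 1) : lsum f x = 0 := by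
  have : ⌊x⌋₊ = 0 := Nat.floor_eq_zero.2 hx
  simp [lsum, this]

lemma norm_lsum_le (f : ℕ → ℂ) (hf : ∀ n, ‖f n‖ ≤ 1) {x : ℝ} (hx : 1 ≤ x) :
    ‖lsum f x‖ ≤ 1 + Real.log x := by
  have h1 : ‖lsum f x‖ ≤ ((harmonic ⌊x⌋₊ : ℚ) : ℝ) := by
    rw [harmonic_eq_sum_Icc]
    unfold lsum
    refine (norm_sum_le _ _).trans ?_
    rw [← Finset.sum_subset (s₁ := Icc 1 ⌊x⌋₊) (s₂ := Icc 0 ⌊x⌋₊)]
    · push_cast
      refine Finset.sum_le_sum fun n hn => ?_
      rw [norm_div, Complex.norm_natCast, ← one_div]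
      have : (0 : ℝ) < n := by
        have := (Finset.mem_Icc.1 hn).1
        exact_mod_cast this
      exact div_le_div_of_nonneg_right (hf n) this.le
    · exact Finset.Icc_subset_Icc (by norm_num) le_rfl
    · intro n hn hn'
      have : n = 0 := by
        simp only [Finset.mem_Icc] at hn hn'
        omega
      simp [this]
  refine h1.trans ?_
  exact harmonic_floor_le_one_add_log x hx

lemma asy_one : Asy (fun _ => 1) 1 (Real.eulerMascheroniConstant : ℂ) := by
  unfold Asy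
  have h1 : ∀ x : ℝ, lsum (fun _ => 1) x = (((harmonic ⌊x⌋₊ : ℚ) : ℝ) : ℂ) := by
    intro x
    rw [harmonic_eq_sum_Icc]
    unfold lsum
    rw [← Finset.sum_subset (s₁ := Icc 1 ⌊x⌋₊) (s₂ := Icc 0 ⌊x⌋₊)]
    · push_cast
      exact Finset.sum_congr rfl fun n _ => by rw [one_div]
    · exact Finset.Icc_subset_Icc (by norm_num) le_rfl
    · intro n hn hn'
      have : n = 0 := by
        simp only [Finset.mem_Icc] at hn hn'
        omega
      simp [this]
  have h2 : Tendsto (fun x : ℝ => ((harmonic ⌊x⌋₊ : ℚ) : ℝ) - Real.log (⌊x⌋₊ : ℝ)) atTop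
      (𝓝 Real.eulerMascheroniConstant) :=
    Real.tendsto_harmonic_sub_log.comp tendsto_nat_floor_atTop
  have h3 : Tendsto (fun x : ℝ => Real.log (⌊x⌋₊ : ℝ) - Real.log x) atTop (𝓝 0) := by
    have h4 : Tendsto (fun x : ℝ => ((⌊x⌋₊ : ℝ)) / x) atTop (𝓝 1) :=
      tendsto_nat_floor_div_atTop
    have h5 := (Real.continuousAt_log (one_ne_zero)).tendsto.comp h4
    rw [Real.log_one] at h5
    refine h5.congr' ?_
    filter_upwards [eventually_ge_atTop (1 : ℝ)] with x hx
    have : 0 < ⌊x⌋₊ := Nat.floor_pos.2 hx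
    rw [Function.comp_apply, Real.log_div (by positivity) (by positivity)]
  have h6 : Tendsto (fun x : ℝ => ((harmonic ⌊x⌋₊ : ℚ) : ℝ) -
      (Real.log x + Real.eulerMascheroniConstant)) atTop (𝓝 0) := by
    have := (h2.add h3).sub_const Real.eulerMascheroniConstant
    rw [add_zero, sub_self] at this
    refine this.congr fun x => ?_
    ring
  have h7 := (Complex.continuous_ofReal.tendsto 0).comp h6
  rw [Complex.ofReal_zero] at h7
  refine h7.congr fun x => ?_
  rw [h1, Function.comp_apply]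
  push_cast
  ring

/-- splitting off the multiples of `p` -/
lemma lsum_split (f : ℕ → ℂ) (c : ℂ) (p : ℕ) (hp : 0 < p) (hf : ∀ n, f (p * n) = c * f n)
    {x : ℝ} (hx : 0 ≤ x) :
    lsum f x = (∑ n ∈ (Icc 0 ⌊x⌋₊).filter (fun n => ¬ p ∣ n), f n / n) +
      c / p * lsum f (x / p) := by
  classical
  unfold lsum
  rw [← Finset.sum_filter_not_add_sum_filter (Icc 0 ⌊x⌋₊) (fun n => p ∣ n)]
  congr 1
  rw [Finset.mul_sum]
  symm
  apply Finset.sum_bij (fun n _ => p * n)
  · intro n hn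
    simp only [Finset.mem_filter, Finset.mem_Icc] at hn ⊢
    refine ⟨⟨Nat.zero_le _, ?_⟩, dvd_mul_right _ _⟩
    rw [Nat.le_floor_iff hx]
    have h1 := (Nat.le_floor_iff (by positivity)).1 hn.2
    rw [le_div_iff₀ (by exact_mod_cast hp)] at h1
    push_cast
    linarith
  · intro a _ b _ h
    exact Nat.eq_of_mul_eq_mul_left hp h
  · intro n hn
    simp only [Finset.mem_filter, Finset.mem_Icc] at hn
    obtain ⟨⟨-, h1⟩, m, rfl⟩ := hn
    refine ⟨m, ?_, rfl⟩
    simp only [Finset.mem_Icc]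
    refine ⟨Nat.zero_le _, ?_⟩
    rw [Nat.le_floor_iff (by positivity), le_div_iff₀ (by exact_mod_cast hp)]
    rw [Nat.le_floor_iff hx] at h1
    push_cast at h1
    linarith
  · intro n _
    rw [hf n]
    have : (p : ℂ) ≠ 0 := by exact_mod_cast hp.ne'
    push_cast
    rcases eq_or_ne n 0 with rfl | hn
    · simp
    · have : (n : ℂ) ≠ 0 := by exact_mod_cast hn
      field_simp

/-- relation between a function and its modification at `p` -/
lemma lsum_rel (f g : ℕ → ℂ) (z : ℂ) (p : ℕ) (hp : 0 < p) (hf : ∀ n, f (p * n) = f n)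
    (hg : ∀ n, g (p * n) = z * g n) (hfg : ∀ n, ¬ p ∣ n → g n = f n) {x : ℝ} (hx : 0 ≤ x) :
    lsum g x - z / p * lsum g (x / p) = lsum f x - 1 / p * lsum f (x / p) := by
  have h1 := lsum_split f 1 p hp (fun n => by rw [hf, one_mul]) hx
  have h2 := lsum_split g z p hp hg hx
  have h3 : (∑ n ∈ (Icc 0 ⌊x⌋₊).filter (fun n => ¬ p ∣ n), g n / n) =
      ∑ n ∈ (Icc 0 ⌊x⌋₊).filter (fun n => ¬ p ∣ n), f n / n := by
    refine Finset.sum_congr rfl fun n hn => ?_
    rw [hfg n (Finset.mem_filter.1 hn).2]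
  rw [h1, h2, h3]
  ring

end Pool.Agent.E8helper48.TP
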