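import Pool.Agent.E8helper48.TP.A

/-!
# Transfer of the asymptotics to a modification at one prime
-/

set_option autoImplicit false

namespace Pool.Agent.E8helper48.TP

open Filter Topology Finset

lemma err_bound (f : ℕ → ℂ) (hf : ∀ n, ‖f n‖ ≤ 1) (R C : ℂ) :
    ∃ K : ℝ, 0 ≤ K ∧ ∀ y : ℝ, 0 < y →
      ‖lsum f y - (R * Real.log y + C)‖ ≤ K * (1 + |Real.log y|) := by
  refine ⟨1 + ‖R‖ + ‖C‖, by positivity, fun y hy => ?_⟩
  have h1 : ‖lsum f y‖ ≤ 1 + |Real.log y| := by
    rcases lt_or_ge y 1 with h | h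
    · rw [lsum_of_lt_one f h, norm_zero]
      positivity
    · exact (norm_lsum_le f hf h).trans (by
        have := le_abs_self (Real.log y)
        linarith)
  have h2 : ‖R * (Real.log y : ℂ) + C‖ ≤ ‖R‖ * |Real.log y| + ‖C‖ := by
    refine (norm_add_le _ _).trans ?_
    rw [norm_mul, Complex.norm_real, Real.norm_eq_abs]
  have h3 := abs_nonneg (Real.log y)
  have h4 := norm_nonneg R
  have h5 := norm_nonneg C
  calc ‖lsum f y - (R * Real.log y + C)‖ ≤ ‖lsum f y‖ + ‖R * (Real.log y : ℂ) + C‖ :=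
        norm_sub_le _ _
    _ ≤ (1 + |Real.log y|) + (‖R‖ * |Real.log y| + ‖C‖) := add_le_add h1 h2
    _ ≤ (1 + ‖R‖ + ‖C‖) * (1 + |Real.log y|) := by nlinarith [mul_nonneg h5 h3]

lemma asy_transfer (f g : ℕ → ℂ) (z : ℂ) (p : ℕ) (hp : 2 ≤ p) (hf : ∀ n, f (p * n) = f n)
    (hg : ∀ n, g (p * n) = z * g n) (hfg : ∀ n, ¬ p ∣ n → g n = f n)
    (hf1 : ∀ n, ‖f n‖ ≤ 1) (hg1 : ∀ n, ‖g n‖ ≤ 1) (hz : ‖z‖ ≤ 1) (R C R' C' : ℂ)
    (hR : R' * (1 - z / p) = R * (1 - 1 / p))
    (hC : C' * (1 - z / p) + z / p * R' * Real.log p = C * (1 - 1 / p) + R / p * Real.log p)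
    (h : Asy f R C) : Asy g R' C' := by
  have hp0 : (0 : ℝ) < p := by
    have : 0 < p := by omega
    exact_mod_cast this
  have hp1 : (1 : ℝ) ≤ p := by
    have : 1 ≤ p := by omega
    exact_mod_cast this
  have hpC : (p : ℂ) ≠ 0 := by
    have : p ≠ 0 := by omega
    exact_mod_cast this
  set q : ℂ := z / p with hq
  set E : ℝ → ℂ := fun x => lsum f x - (R * Real.log x + C) with hE
  set E' : ℝ → ℂ := fun x => lsum g x - (R' * Real.log x + C') with hE'
  set e : ℝ → ℂ := fun x => E x - 1 / p * E (x / p) with he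
  have hqn : ‖q‖ ≤ 1 / 2 := by
    rw [hq, norm_div, Complex.norm_natCast]
    have : (2 : ℝ) ≤ p := by exact_mod_cast hp
    rw [div_le_div_iff₀ hp0 (by norm_num)]
    linarith
  have hrel : ∀ x : ℝ, 0 < x → E' x - q * E' (x / p) = e x := by
    intro x hx
    have h1 := lsum_rel f g z p (by omega) hf hg hfg hx.le
    simp only [hE, hE', he]
    have h2 : ((Real.log (x / p) : ℝ) : ℂ) = Real.log x - Real.log p := by
      rw [Real.log_div hx.ne' hp0.ne']
      push_cast
      ring
    rw [h2]
    have h3 : lsum g x = z / p * lsum g (x / p) + (lsum f x - 1 / p * lsum f (x / p)) := by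
      rw [← h1]; ring
    rw [h3, ← hq]
    have h4 : C' * (1 - q) = C * (1 - 1 / p) + R / p * Real.log p - q * R' * Real.log p := by
      rw [← hC]; ring
    linear_combination (-(Real.log x : ℂ)) * hR - h4
  obtain ⟨K, hK0, hK⟩ := err_bound f hf1 R C
  obtain ⟨K', hK'0, hK'⟩ := err_bound g hg1 R' C'
  have hlogp : 0 ≤ Real.log p := Real.log_nonneg hp1
  -- growth of e
  have heb : ∀ y : ℝ, 0 < y → ‖e y‖ ≤ 2 * K * (1 + Real.log p + |Real.log y|) := by
    intro y hy
    have h1 := hK y hy
    have h2 := hK (y / p) (by positivity)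
    have h3 : |Real.log (y / p)| ≤ |Real.log y| + Real.log p := by
      rw [Real.log_div hy.ne' hp0.ne']
      have := abs_sub (Real.log y) (Real.log p)
      rwa [abs_of_nonneg hlogp] at this
    have h4 : ‖(1 : ℂ) / p * E (y / p)‖ ≤ ‖E (y / p)‖ := by
      rw [norm_mul, norm_div, norm_one, Complex.norm_natCast]
      have : (1 : ℝ) / p ≤ 1 := by
        rw [div_le_one hp0]; exact hp1
      exact mul_le_of_le_one_left (norm_nonneg _) this
    calc ‖e y‖ ≤ ‖E y‖ + ‖(1 : ℂ) / p * E (y / p)‖ := norm_sub_le _ _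
      _ ≤ K * (1 + |Real.log y|) + K * (1 + |Real.log (y / p)|) := by
          exact add_le_add h1 (h4.trans h2)
      _ ≤ K * (1 + Real.log p + |Real.log y|) + K * (1 + Real.log p + |Real.log y|) := by
          refine add_le_add (mul_le_mul_of_nonneg_left ?_ hK0) (mul_le_mul_of_nonneg_left ?_ hK0)
          · linarith
          · linarith
      _ = 2 * K * (1 + Real.log p + |Real.log y|) := by ring
  -- e tends to zero
  have hdiv : Tendsto (fun x : ℝ => x / p) atTop atTop := tendsto_id.atTop_div_const hp0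
  have he0 : Tendsto e atTop (𝓝 0) := by
    have h1 : Tendsto E atTop (𝓝 0) := h
    have h2 := h1.sub ((h1.comp hdiv).const_mul ((1 : ℂ) / p))
    rw [mul_zero, sub_zero] at h2
    exact h2
  obtain ⟨Y, hY⟩ := (Metric.tendsto_atTop.1 he0) 1 one_pos
  set Y1 := max Y 1 with hY1
  have hY11 : 1 ≤ Y1 := le_max_right _ _
  set C1 : ℝ := 1 + 2 * K * (1 + Real.log p + Real.log Y1) with hC1
  have hlogY : 0 ≤ Real.log Y1 := Real.log_nonneg hY11
  have he1 : ∀ y : ℝ, 1 ≤ y → ‖e y‖ ≤ C1 := by
    intro y hy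
    rcases le_or_gt Y1 y with h1 | h1
    · have h2 := hY y ((le_max_left _ _).trans h1)
      rw [dist_zero_right] at h2
      have : 0 ≤ 2 * K * (1 + Real.log p + Real.log Y1) := by positivity
      linarith
    · refine (heb y (by linarith)).trans ?_
      have h2 : |Real.log y| ≤ Real.log Y1 := by
        rw [abs_of_nonneg (Real.log_nonneg hy)]
        exact Real.log_le_log (by linarith) h1.le
      have : 2 * K * (1 + Real.log p + |Real.log y|) ≤ 2 * K * (1 + Real.log p + Real.log Y1) := by
        gcongr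
      linarith
  have hC1pos : 0 ≤ C1 := by positivity
  set B : ℕ → ℝ := fun j => (1 / 2) ^ j * (C1 + 2 * K * (1 + Real.log p + j * Real.log p)) with hB
  have hbound : ∀ x : ℝ, 1 ≤ x → ∀ j : ℕ, ‖q ^ j * e (x / (p : ℝ) ^ j)‖ ≤ B j := by
    intro x hx j
    have hpj : (0 : ℝ) < (p : ℝ) ^ j := by positivity
    rw [norm_mul, norm_pow]
    have h1 : ‖e (x / (p : ℝ) ^ j)‖ ≤ C1 + 2 * K * (1 + Real.log p + j * Real.log p) := by
      rcases le_or_gt 1 (x / (p : ℝ) ^ j) with h2 | h2
      · have h3 := he1 _ h2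
        have : 0 ≤ 2 * K * (1 + Real.log p + j * Real.log p) := by positivity
        linarith
      · have h3 := heb (x / (p : ℝ) ^ j) (by positivity)
        have h4 : |Real.log (x / (p : ℝ) ^ j)| ≤ j * Real.log p := by
          rw [abs_of_nonpos (Real.log_nonpos (by positivity) h2.le),
            Real.log_div (by positivity) (by positivity), Real.log_pow]
          have := Real.log_nonneg hx
          linarith
        have : 2 * K * (1 + Real.log p + |Real.log (x / (p : ℝ) ^ j)|) ≤
            2 * K * (1 + Real.log p + j * Real.log p) := by gcongr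
        linarith
    have h5 : ‖q‖ ^ j ≤ (1 / 2) ^ j := pow_le_pow_left₀ (norm_nonneg _) hqn j
    exact mul_le_mul h5 h1 (norm_nonneg _) (by positivity)
  have hBs : Summable B := by
    have s1 : Summable (fun j : ℕ => ((1 / 2 : ℝ)) ^ j) :=
      summable_geometric_of_lt_one (by norm_num) (by norm_num)
    have s2 : Summable (fun j : ℕ => (j : ℝ) * (1 / 2 : ℝ) ^ j) := by
      have := summable_pow_mul_geometric_of_norm_lt_one 1 (r := (1 / 2 : ℝ)) (by norm_num)
      simpa using this
    have s3 := (s1.mul_left (C1 + 2 * K * (1 + Real.log p))).add (s2.mul_left (2 * K * Real.log p))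
    refine s3.congr fun j => ?_
    rw [hB]
    ring
  -- the series
  have hser : ∀ x : ℝ, 1 ≤ x → HasSum (fun j : ℕ => q ^ j * e (x / (p : ℝ) ^ j)) (E' x) := by
    intro x hx
    have hx0 : 0 < x := by linarith
    have hsum : Summable (fun j : ℕ => q ^ j * e (x / (p : ℝ) ^ j)) :=
      Summable.of_norm_bounded hBs (hbound x hx)
    have hpart : ∀ J : ℕ, ∑ j ∈ range J, q ^ j * e (x / (p : ℝ) ^ j) =
        E' x - q ^ J * E' (x / (p : ℝ) ^ J) := by
      intro J
      induction J with
      | zero => simp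
      | succ J ih =>
        rw [Finset.sum_range_succ, ih]
        have h1 := hrel (x / (p : ℝ) ^ J) (by positivity)
        rw [div_div, ← pow_succ] at h1
        rw [← h1]
        ring
    have hlim : Tendsto (fun J : ℕ => q ^ J * E' (x / (p : ℝ) ^ J)) atTop (𝓝 0) := by
      have h1 : ∀ J : ℕ, ‖q ^ J * E' (x / (p : ℝ) ^ J)‖ ≤
          (1 / 2) ^ J * (K' * (1 + |Real.log x| + J * Real.log p)) := by
        intro J
        rw [norm_mul, norm_pow]
        have h2 := hK' (x / (p : ℝ) ^ J) (by positivity)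
        have h3 : |Real.log (x / (p : ℝ) ^ J)| ≤ |Real.log x| + J * Real.log p := by
          rw [Real.log_div (by positivity) (by positivity), Real.log_pow]
          have := abs_sub (Real.log x) (J * Real.log p)
          rwa [abs_of_nonneg (by positivity : 0 ≤ (J : ℝ) * Real.log p)] at this
        have h4 : K' * (1 + |Real.log (x / (p : ℝ) ^ J)|) ≤
            K' * (1 + |Real.log x| + J * Real.log p) := by
          refine mul_le_mul_of_nonneg_left ?_ hK'0
          linarith
        have h5 : ‖q‖ ^ J ≤ (1 / 2) ^ J := pow_le_pow_left₀ (norm_nonneg _) hqn J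
        exact mul_le_mul h5 (h2.trans h4) (norm_nonneg _) (by positivity)
      refine squeeze_zero_norm h1 ?_
      have s1 : Summable (fun j : ℕ => ((1 / 2 : ℝ)) ^ j) :=
        summable_geometric_of_lt_one (by norm_num) (by norm_num)
      have s2 : Summable (fun j : ℕ => (j : ℝ) * (1 / 2 : ℝ) ^ j) := by
        have := summable_pow_mul_geometric_of_norm_lt_one 1 (r := (1 / 2 : ℝ)) (by norm_num)
        simpa using this
      have s3 := (s1.mul_left (K' * (1 + |Real.log x|))).add (s2.mul_left (K' * Real.log p))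
      refine s3.tendsto_atTop_zero.congr fun j => ?_
      ring
    have h2 := hsum.hasSum.tendsto_sum_nat
    have h3 : Tendsto (fun J : ℕ => ∑ j ∈ range J, q ^ j * e (x / (p : ℝ) ^ j)) atTop
        (𝓝 (E' x)) := by
      have := hlim.const_sub (E' x)
      rw [sub_zero] at this
      exact this.congr fun J => (hpart J).symm
    rw [← tendsto_nhds_unique h2 h3]
    exact hsum.hasSum
  have htan : Tendsto (fun x : ℝ => ∑' j : ℕ, q ^ j * e (x / (p : ℝ) ^ j)) atTop
      (𝓝 (∑' _ : ℕ, (0 : ℂ))) := by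
    refine tendsto_tsum_of_dominated_convergence hBs (fun j => ?_) ?_
    · have h1 : Tendsto (fun x : ℝ => x / (p : ℝ) ^ j) atTop atTop :=
        tendsto_id.atTop_div_const (by positivity)
      have h2 := (he0.comp h1).const_mul (q ^ j)
      rw [mul_zero] at h2
      exact h2
    · filter_upwards [eventually_ge_atTop (1 : ℝ)] with x hx j
      exact hbound x hx j
  rw [tsum_zero] at htan
  refine htan.congr' ?_
  filter_upwards [eventually_ge_atTop (1 : ℝ)] with x hx
  exact (hser x hx).tsum_eq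

end Pool.Agent.E8helper48.TP
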