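import Pool.Agent.E8helper48.TP.B

/-!
# The twisted function and its logarithmic sums
-/

set_option autoImplicit false

namespace Pool.Agent.E8helper48.TP

open Filter Topology Finset

/-- the indicator function of the positive integers divisible by no member of `S` -/
noncomputable def gS (S : Finset ℕ) (n : ℕ) : ℂ := by
  classical
  exact if n ≠ 0 ∧ ∀ p ∈ S, ¬ p ∣ n then 1 else 0

lemma norm_gS_le (S : Finset ℕ) (n : ℕ) : ‖gS S n‖ ≤ 1 := by
  unfold gS
  split_ifs <;> simp

lemma asy_gS (S : Finset ℕ) (hS : ∀ p ∈ S, p.Prime) :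
    ∃ R C : ℝ, R ≠ 0 ∧ Asy (gS S) (R : ℂ) (C : ℂ) := by
  classical
  induction S using Finset.induction_on with
  | empty =>
    refine ⟨1, Real.eulerMascheroniConstant, one_ne_zero, ?_⟩
    have h := asy_one
    unfold Asy at h ⊢
    rw [Complex.ofReal_one]
    refine h.congr fun x => ?_
    congr 1
    unfold lsum
    refine Finset.sum_congr rfl fun n _ => ?_
    rcases eq_or_ne n 0 with rfl | hn
    · simp
    · simp [gS, hn]
  | insert p S hp ih =>
    obtain ⟨R, C, hR, h⟩ := ih fun q hq => hS q (Finset.mem_insert_of_mem hq)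
    have hpp : p.Prime := hS p (Finset.mem_insert_self _ _)
    have hp1 : (1 : ℝ) < p := by exact_mod_cast hpp.one_lt
    refine ⟨R * (1 - 1 / p), C * (1 - 1 / p) + R / p * Real.log p, ?_, ?_⟩
    · refine mul_ne_zero hR ?_
      have : 1 / (p : ℝ) < 1 := by
        rw [div_lt_one (by linarith)]; exact hp1
      linarith
    · refine asy_transfer (gS S) (gS (insert p S)) 0 p hpp.two_le ?_ ?_ ?_ (norm_gS_le _)
        (norm_gS_le _) (by simp) R C _ _ (by push_cast; ring) (by push_cast; ring) h
      · intro n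
        unfold gS
        have : (p * n ≠ 0 ∧ ∀ q ∈ S, ¬ q ∣ p * n) ↔ (n ≠ 0 ∧ ∀ q ∈ S, ¬ q ∣ n) := by
          refine and_congr ?_ ?_
          · simp [hpp.ne_zero]
          · refine forall₂_congr fun q hq => not_congr ?_
            have hqp : q.Prime := hS q (Finset.mem_insert_of_mem hq)
            have hne : q ≠ p := fun h => hp (h ▸ hq)
            have hc : Nat.Coprime q p := (Nat.coprime_primes hqp hpp).2 hne
            exact hc.dvd_mul_left
        simp only [this]
      · intro n
        rw [zero_mul]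
        unfold gS
        rw [if_neg]
        rintro ⟨-, h2⟩
        exact h2 p (Finset.mem_insert_self _ _) (dvd_mul_right _ _)
      · intro n hn
        unfold gS
        have : (n ≠ 0 ∧ ∀ q ∈ insert p S, ¬ q ∣ n) ↔ (n ≠ 0 ∧ ∀ q ∈ S, ¬ q ∣ n) := by
          simp [hn]
        simp only [this]

/-- the twisted function -/
noncomputable def gT (k p : ℕ) (n : ℕ) : ℂ := gS k.primeFactors n * Complex.I ^ (padicValNat p n)

lemma norm_gT_le (k p n : ℕ) : ‖gT k p n‖ ≤ 1 := by
  unfold gT
  rw [norm_mul, norm_pow, Complex.norm_I, one_pow, mul_one]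
  exact norm_gS_le _ _

lemma asy_gT (k p : ℕ) (hk : k ≠ 0) (hp : p.Prime) (hpk : ¬ p ∣ k) :
    ∃ R τ : ℂ, R ≠ 0 ∧ τ.im < 0 ∧ Asy (gT k p) R (R * τ) := by
  have hpf : Fact p.Prime := ⟨hp⟩
  obtain ⟨R, C, hR, h⟩ := asy_gS k.primeFactors fun q hq => Nat.prime_of_mem_primeFactors hq
  have hp1 : (1 : ℝ) < p := by exact_mod_cast hp.one_lt
  have hp0 : (p : ℂ) ≠ 0 := by exact_mod_cast hp.ne_zero
  have hlog : 0 < Real.log p := Real.log_pos hp1
  have h1p : (1 - 1 / (p : ℝ)) ≠ 0 := by
    have : 1 / (p : ℝ) < 1 := by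
      rw [div_lt_one (by linarith)]; exact hp1
    linarith
  have hsq : ((p : ℂ) ^ 2 + 1) ≠ 0 := by
    have : ((p : ℝ) ^ 2 + 1) ≠ 0 := by positivity
    exact_mod_cast this
  have hpI : ((p : ℂ) - Complex.I) ≠ 0 := by
    intro h0
    have := congrArg Complex.im h0
    simp at this
  have hprod : ((p : ℂ) - Complex.I) * ((p : ℂ) + Complex.I) = (p : ℂ) ^ 2 + 1 := by
    have := Complex.I_sq
    linear_combination -this
  set T : ℝ := (C * (1 - 1 / p) + R / p * Real.log p) / (R * (1 - 1 / p)) with hT
  set R' : ℂ := R * (1 - 1 / p) * (p * (p + Complex.I) / (p ^ 2 + 1)) with hR'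
  set τ : ℂ := (T : ℂ) - Real.log p * ((-1 + p * Complex.I) / (p ^ 2 + 1)) with hτ
  have h1pC : ((1 : ℂ) - 1 / p) ≠ 0 := by
    have := Complex.ofReal_ne_zero.2 h1p
    push_cast at this
    exact this
  have hRC : (R : ℂ) ≠ 0 := by exact_mod_cast hR
  have hR'0 : R' ≠ 0 := by
    rw [hR']
    refine mul_ne_zero (mul_ne_zero hRC h1pC) (div_ne_zero (mul_ne_zero hp0 ?_) hsq)
    intro h0
    rw [h0, mul_zero] at hprod
    exact hsq hprod.symm
  have hinv : (1 - Complex.I / (p : ℂ)) * (p * (p + Complex.I) / (p ^ 2 + 1)) = 1 := by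
    field_simp
    linear_combination hprod
  have hIq : Complex.I / (p : ℂ) * (p * (p + Complex.I) / (p ^ 2 + 1)) =
      (-1 + p * Complex.I) / (p ^ 2 + 1) := by
    field_simp
    have := Complex.I_sq
    linear_combination this
  have hTC : (T : ℂ) * (R * (1 - 1 / p)) = C * (1 - 1 / p) + R / p * Real.log p := by
    rw [hT]
    push_cast
    rw [div_mul_cancel₀]
    exact mul_ne_zero hRC h1pC
  refine ⟨R', τ, hR'0, ?_, ?_⟩
  · have e1 : τ = ((T + Real.log p / (p ^ 2 + 1) : ℝ) : ℂ) +
        ((-(Real.log p * p / (p ^ 2 + 1)) : ℝ) : ℂ) * Complex.I := by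
      rw [hτ]
      push_cast
      field_simp
      ring
    rw [e1, Complex.add_im, Complex.ofReal_im, Complex.im_ofReal_mul, Complex.I_im]
    have : 0 < Real.log p * p / ((p : ℝ) ^ 2 + 1) := by positivity
    linarith
  · refine asy_transfer (gS k.primeFactors) (gT k p) Complex.I p hp.two_le ?_ ?_ ?_ (norm_gS_le _)
      (norm_gT_le _ _) (by simp) R C _ _ ?_ ?_ h
    · intro n
      unfold gS
      have : (p * n ≠ 0 ∧ ∀ q ∈ k.primeFactors, ¬ q ∣ p * n) ↔
          (n ≠ 0 ∧ ∀ q ∈ k.primeFactors, ¬ q ∣ n) := by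
        refine and_congr ?_ ?_
        · simp [hp.ne_zero]
        · refine forall₂_congr fun q hq => not_congr ?_
          have hqp : q.Prime := Nat.prime_of_mem_primeFactors hq
          have hne : q ≠ p := fun h => hpk (h ▸ Nat.dvd_of_mem_primeFactors hq)
          have hc : Nat.Coprime q p := (Nat.coprime_primes hqp hp).2 hne
          exact hc.dvd_mul_left
      simp only [this]
    · intro n
      rcases eq_or_ne n 0 with rfl | hn
      · simp [gT, gS]
      · unfold gT
        have h1 : gS k.primeFactors (p * n) = gS k.primeFactors n := by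
          unfold gS
          have : (p * n ≠ 0 ∧ ∀ q ∈ k.primeFactors, ¬ q ∣ p * n) ↔
              (n ≠ 0 ∧ ∀ q ∈ k.primeFactors, ¬ q ∣ n) := by
            refine and_congr ?_ ?_
            · simp [hp.ne_zero]
            · refine forall₂_congr fun q hq => not_congr ?_
              have hqp : q.Prime := Nat.prime_of_mem_primeFactors hq
              have hne : q ≠ p := fun h => hpk (h ▸ Nat.dvd_of_mem_primeFactors hq)
              have hc : Nat.Coprime q p := (Nat.coprime_primes hqp hp).2 hne
              exact hc.dvd_mul_left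
          simp only [this]
        rw [h1, padicValNat.mul hp.ne_zero hn, padicValNat_self, pow_add, pow_one]
        ring
    · intro n hn
      unfold gT
      rw [padicValNat.eq_zero_of_not_dvd hn, pow_zero, mul_one]
    · rw [hR']
      linear_combination (R : ℂ) * (1 - 1 / p) * hinv
    · have e2 : R' * (1 - Complex.I / (p : ℂ)) = R * (1 - 1 / p) := by
        rw [hR']
        linear_combination (R : ℂ) * (1 - 1 / p) * hinv
      have e3 : Complex.I / (p : ℂ) * R' = R * (1 - 1 / p) * ((-1 + p * Complex.I) / (p ^ 2 + 1)) := by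
        rw [hR', ← hIq]
        ring
      calc R' * τ * (1 - Complex.I / (p : ℂ)) + Complex.I / (p : ℂ) * R' * Real.log p
          = (R' * (1 - Complex.I / (p : ℂ))) * τ + (Complex.I / (p : ℂ) * R') * Real.log p := by
            ring
        _ = (T : ℂ) * (R * (1 - 1 / p)) := by
            rw [e2, e3, hτ]
            ring
        _ = _ := hTC

end Pool.Agent.E8helper48.TP
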