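import Pool.Agent.E8helper48.TP.C

/-!
# Partial sums close to the point `1`
-/

set_option autoImplicit false

namespace Pool.Agent.E8helper48.TP

open Filter Topology Finset MeasureTheory

/-- the weighted partial sum -/
noncomputable def TN (g : ℕ → ℂ) (N : ℕ) (w : ℂ) : ℂ := ∑ n ∈ Icc 0 N, (n : ℂ) ^ (-w) * (g n / n)

lemma hasDerivAt_pow (w : ℂ) {t : ℝ} (ht : 0 < t) :
    HasDerivAt (fun t : ℝ => (t : ℂ) ^ (-w)) (-w * (t : ℂ) ^ (-w - 1)) t := by
  by_cases hw : w = 0
  · subst hw
    simp only [neg_zero, Complex.cpow_zero, zero_mul]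
    exact hasDerivAt_const _ _
  · have h := hasDerivAt_ofReal_cpow_const' ht.ne' (r := -w - 1) (by
      intro h
      apply hw
      have : -w = 0 := by linear_combination h
      exact neg_eq_zero.1 this)
    rw [sub_add_cancel] at h
    have h2 := h.const_mul (-w)
    refine h2.congr_of_eventuallyEq ?_
    filter_upwards with y
    have : -w ≠ 0 := neg_ne_zero.2 hw
    field_simp

lemma cont_pow (r : ℂ) : ContinuousOn (fun t : ℝ => (t : ℂ) ^ r) (Set.Ioi 0) := by
  intro t ht
  apply ContinuousAt.continuousWithinAt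
  exact (continuousAt_cpow_const (Or.inl (by simpa using ht))).comp
    Complex.continuous_ofReal.continuousAt

lemma abel (g : ℕ → ℂ) (N : ℕ) (w : ℂ) :
    TN g N w = (N : ℂ) ^ (-w) * lsum g N +
      w * ∫ t in Set.Ioc (1 : ℝ) N, (t : ℂ) ^ (-w - 1) * lsum g t := by
  have hdiff : ∀ t ∈ Set.Icc (1 : ℝ) N, DifferentiableAt ℝ (fun t : ℝ => (t : ℂ) ^ (-w)) t := by
    intro t ht
    exact (hasDerivAt_pow w (by linarith [ht.1])).differentiableAt
  have hint : IntegrableOn (deriv (fun t : ℝ => (t : ℂ) ^ (-w))) (Set.Icc (1 : ℝ) N) := by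
    apply ContinuousOn.integrableOn_Icc
    have h1 : ContinuousOn (fun t : ℝ => -w * (t : ℂ) ^ (-w - 1)) (Set.Icc (1 : ℝ) N) :=
      (continuousOn_const.mul (cont_pow _)).mono fun t ht => by
        simp only [Set.mem_Ioi]; linarith [ht.1]
    refine h1.congr fun t ht => ?_
    exact (hasDerivAt_pow w (by linarith [ht.1])).deriv
  have h := sum_mul_eq_sub_integral_mul₀' (𝕜 := ℂ) (c := fun n => g n / n)
    (f := fun t : ℝ => (t : ℂ) ^ (-w)) (by simp) N hdiff hint
  unfold TN
  have h3 : ∫ t in Set.Ioc (1 : ℝ) N, deriv (fun t : ℝ => (t : ℂ) ^ (-w)) t *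
      ∑ k ∈ Icc 0 ⌊t⌋₊, g k / k =
      -w * ∫ t in Set.Ioc (1 : ℝ) N, (t : ℂ) ^ (-w - 1) * lsum g t := by
    rw [← integral_const_mul]
    refine setIntegral_congr_fun measurableSet_Ioc fun t ht => ?_
    change deriv (fun t : ℝ => (t : ℂ) ^ (-w)) t * _ = -w * ((t : ℂ) ^ (-w - 1) * lsum g t)
    rw [(hasDerivAt_pow w (by linarith [ht.1])).deriv]
    unfold lsum
    ring
  have h4 : ((N : ℝ) : ℂ) = (N : ℂ) := by simp
  simp only [Complex.ofReal_natCast] at h
  rw [h, h3]
  unfold lsum
  rw [Nat.floor_natCast]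
  ring

/-- the main term of the integral -/
lemma main_int (R C w : ℂ) (hw : w ≠ 0) (N : ℕ) (hN : 1 ≤ N) :
    w * ∫ t in Set.Ioc (1 : ℝ) N, (t : ℂ) ^ (-w - 1) * (R * Real.log t + C) =
      -((N : ℂ) ^ (-w) * (R * Real.log N + C)) - R * (N : ℂ) ^ (-w) / w + C + R / w := by
  have hN' : (1 : ℝ) ≤ N := by exact_mod_cast hN
  rw [← intervalIntegral.integral_of_le hN']
  have hF : ∀ t ∈ Set.uIcc (1 : ℝ) N, HasDerivAt
      (fun t : ℝ => -((t : ℂ) ^ (-w) * (R * Real.log t + C)) - R * (t : ℂ) ^ (-w) / w)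
      (w * ((t : ℂ) ^ (-w - 1) * (R * Real.log t + C))) t := by
    intro t ht
    rw [Set.uIcc_of_le hN'] at ht
    have ht0 : 0 < t := by linarith [ht.1]
    have h1 := hasDerivAt_pow w ht0
    have h2 : HasDerivAt (fun t : ℝ => ((Real.log t : ℝ) : ℂ)) ((t⁻¹ : ℝ) : ℂ) t :=
      (Real.hasDerivAt_log ht0.ne').ofReal_comp
    have h3 := (h2.const_mul R).add_const C
    have h4 := ((h1.mul h3).neg).sub ((h1.const_mul R).div_const w)
    refine h4.congr_deriv ?_
    have h5 : (t : ℂ) ^ (-w) = (t : ℂ) ^ (-w - 1) * t := by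
      rw [Complex.cpow_sub _ _ (by exact_mod_cast ht0.ne'), Complex.cpow_one, div_mul_cancel₀]
      exact_mod_cast ht0.ne'
    have h6 : (t : ℂ) ≠ 0 := by exact_mod_cast ht0.ne'
    rw [h5]
    push_cast
    field_simp
    ring
  have hcont : ContinuousOn (fun t : ℝ => w * ((t : ℂ) ^ (-w - 1) * (R * Real.log t + C)))
      (Set.uIcc (1 : ℝ) N) := by
    rw [Set.uIcc_of_le hN']
    refine continuousOn_const.mul (((cont_pow _).mono ?_).mul ?_)
    · intro t ht
      simp only [Set.mem_Ioi]; linarith [ht.1]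
    · refine (continuousOn_const.mul ?_).add continuousOn_const
      refine Complex.continuous_ofReal.comp_continuousOn ?_
      refine Real.continuousOn_log.mono ?_
      intro t ht
      simp only [Set.mem_compl_iff, Set.mem_singleton_iff]
      linarith [ht.1]
  have h := intervalIntegral.integral_eq_sub_of_hasDerivAt hF hcont.intervalIntegrable
  rw [← intervalIntegral.integral_const_mul, h]
  simp only [Complex.ofReal_one, Complex.one_cpow, Real.log_one, Complex.ofReal_zero, mul_zero,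
    zero_add, one_mul, Complex.ofReal_natCast, mul_one]
  ring

/-- the exact formula with an error integral -/
lemma exact_formula (g : ℕ → ℂ) (R C w : ℂ) (hw : w ≠ 0) (N : ℕ) (hN : 1 ≤ N) :
    TN g N w - (R * (1 - (N : ℂ) ^ (-w)) / w + C) =
      (N : ℂ) ^ (-w) * (lsum g N - (R * Real.log N + C)) +
      w * ∫ t in Set.Ioc (1 : ℝ) N, (t : ℂ) ^ (-w - 1) * (lsum g t - (R * Real.log t + C)) := by
  have hi1 : IntegrableOn (fun t : ℝ => (t : ℂ) ^ (-w - 1)) (Set.Icc (1 : ℝ) N) := by
    apply ContinuousOn.integrableOn_Icc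
    exact (cont_pow _).mono fun t ht => by
      simp only [Set.mem_Ioi]; linarith [ht.1]
  have hi2 : IntegrableOn (fun t : ℝ => (t : ℂ) ^ (-w - 1) * lsum g t) (Set.Ioc (1 : ℝ) N) := by
    have := integrableOn_mul_sum_Icc (fun n => g n / n) (m := 0) zero_le_one hi1
    exact this.mono_set Set.Ioc_subset_Icc_self
  have hi3 : IntegrableOn (fun t : ℝ => (t : ℂ) ^ (-w - 1) * (R * Real.log t + C))
      (Set.Ioc (1 : ℝ) N) := by
    refine IntegrableOn.mono_set ?_ Set.Ioc_subset_Icc_self
    apply ContinuousOn.integrableOn_Icc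
    refine ((cont_pow _).mono ?_).mul ?_
    · intro t ht
      simp only [Set.mem_Ioi]; linarith [ht.1]
    · refine (continuousOn_const.mul ?_).add continuousOn_const
      refine Complex.continuous_ofReal.comp_continuousOn ?_
      refine Real.continuousOn_log.mono ?_
      intro t ht
      simp only [Set.mem_compl_iff, Set.mem_singleton_iff]
      linarith [ht.1]
  have h1 : ∫ t in Set.Ioc (1 : ℝ) N, (t : ℂ) ^ (-w - 1) * (lsum g t - (R * Real.log t + C)) =
      (∫ t in Set.Ioc (1 : ℝ) N, (t : ℂ) ^ (-w - 1) * lsum g t) -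
      ∫ t in Set.Ioc (1 : ℝ) N, (t : ℂ) ^ (-w - 1) * (R * Real.log t + C) := by
    rw [← integral_sub hi2 hi3]
    refine integral_congr_ae (Eventually.of_forall fun t => ?_)
    ring
  have h2 := main_int R C w hw N hN
  have h3 := abel g N w
  rw [h1, h3]
  have h4 : R * (1 - (N : ℂ) ^ (-w)) / w = R / w - R * (N : ℂ) ^ (-w) / w := by ring
  rw [h4]
  linear_combination h2

/-- the error is small, uniformly for `‖w‖ ≤ W / log N` -/
lemma uniform_error (g : ℕ → ℂ) (hg : ∀ n, ‖g n‖ ≤ 1) (R C : ℂ) (h : Asy g R C) (W : ℝ)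
    (hW : 0 ≤ W) (δ : ℝ) (hδ : 0 < δ) :
    ∃ N₀ : ℕ, ∀ N : ℕ, N₀ ≤ N → ∀ w : ℂ, w ≠ 0 → ‖w‖ * Real.log N ≤ W →
      ‖TN g N w - (R * (1 - (N : ℂ) ^ (-w)) / w + C)‖ ≤ δ := by
  set E : ℝ → ℂ := fun t => lsum g t - (R * Real.log t + C) with hE
  have hE0 : Tendsto E atTop (𝓝 0) := h
  set M : ℝ := Real.exp W with hM
  have hM0 : 0 < M := Real.exp_pos _
  set ε : ℝ := δ / (2 * M * (1 + W)) with hε
  have hε0 : 0 < ε := by positivity
  obtain ⟨Y, hY⟩ := (Metric.tendsto_atTop.1 hE0) ε hε0
  obtain ⟨K, hK0, hK⟩ := err_bound g hg R C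
  set T0 : ℝ := max Y 1 with hT0
  have hT01 : 1 ≤ T0 := le_max_right _ _
  set B : ℝ := K * (1 + Real.log T0) * T0 with hB
  have hB0 : 0 ≤ B := by
    have := Real.log_nonneg hT01
    positivity
  -- pointwise bound
  have hEb : ∀ t : ℝ, 1 ≤ t → ‖E t‖ ≤ ε + B / t := by
    intro t ht
    have ht0 : 0 < t := by linarith
    rcases le_or_gt T0 t with h1 | h1
    · have h2 := hY t ((le_max_left _ _).trans h1)
      rw [dist_zero_right] at h2
      have : 0 ≤ B / t := by positivity
      linarith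
    · have h2 := hK t ht0
      have h3 : |Real.log t| ≤ Real.log T0 := by
        rw [abs_of_nonneg (Real.log_nonneg ht)]
        exact Real.log_le_log ht0 h1.le
      have h4 : K * (1 + |Real.log t|) ≤ B / t := by
        rw [le_div_iff₀ ht0, hB]
        have h5 : K * (1 + |Real.log t|) ≤ K * (1 + Real.log T0) :=
          mul_le_mul_of_nonneg_left (by linarith) hK0
        have h6 := Real.log_nonneg hT01
        exact mul_le_mul h5 h1.le ht0.le (by positivity)
      exact (h2.trans h4).trans (by linarith)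
  obtain ⟨N1, hN1⟩ := (Metric.tendsto_atTop.1
    ((hE0.comp tendsto_natCast_atTop_atTop))) (δ / (4 * M)) (by positivity)
  obtain ⟨N2, hN2⟩ := ((tendsto_atTop.1 (Real.tendsto_log_atTop.comp tendsto_natCast_atTop_atTop)
    (4 * W * M * B / δ + 1)).exists_forall_of_atTop)
  refine ⟨max (max N1 N2) 3, fun N hN w hw hwN => ?_⟩
  have hNN1 : N1 ≤ N := (le_max_left _ _).trans ((le_max_left _ _).trans hN)
  have hNN2 : N2 ≤ N := (le_max_right _ _).trans ((le_max_left _ _).trans hN)
  have hN3 : 3 ≤ N := (le_max_right _ _).trans hN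
  have hN1' : 1 ≤ N := by omega
  have hNR : (1 : ℝ) ≤ N := by exact_mod_cast hN1'
  have hN0 : (0 : ℝ) < N := by linarith
  have hL : 4 * W * M * B / δ + 1 ≤ Real.log N := hN2 N hNN2
  have hLpos : 0 < Real.log N := by
    have : 0 ≤ 4 * W * M * B / δ := by positivity
    linarith
  -- size of powers
  have hpow : ∀ t : ℝ, 1 ≤ t → t ≤ N → ‖(t : ℂ) ^ (-w)‖ ≤ M := by
    intro t ht htN
    have ht0 : 0 < t := by linarith
    rw [Complex.norm_cpow_eq_rpow_re_of_pos ht0, Real.rpow_def_of_pos ht0]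
    apply Real.exp_le_exp.2
    have h1 : |(-w).re| ≤ ‖w‖ := by
      rw [← norm_neg w]; exact Complex.abs_re_le_norm _
    have h2 : (-w).re ≤ ‖w‖ := (le_abs_self _).trans h1
    have h3 : 0 ≤ Real.log t := Real.log_nonneg ht
    have h4 : Real.log t ≤ Real.log N := Real.log_le_log ht0 htN
    calc Real.log t * (-w).re ≤ Real.log t * ‖w‖ := mul_le_mul_of_nonneg_left h2 h3
      _ ≤ Real.log N * ‖w‖ := mul_le_mul_of_nonneg_right h4 (norm_nonneg _)
      _ ≤ W := by rw [mul_comm]; exact hwN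
  have hpow1 : ∀ t : ℝ, 1 ≤ t → t ≤ N → ‖(t : ℂ) ^ (-w - 1)‖ ≤ M / t := by
    intro t ht htN
    have ht0 : 0 < t := by linarith
    have htC : (t : ℂ) ≠ 0 := by exact_mod_cast ht0.ne'
    rw [Complex.cpow_sub _ _ htC, Complex.cpow_one, norm_div, Complex.norm_real,
      Real.norm_of_nonneg ht0.le]
    exact div_le_div_of_nonneg_right (hpow t ht htN) ht0.le
  rw [exact_formula g R C w hw N hN1']
  have e1 : ‖(N : ℂ) ^ (-w) * (lsum g N - (R * Real.log N + C))‖ ≤ δ / 4 := by
    rw [norm_mul]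
    have h1 : ‖(N : ℂ) ^ (-w)‖ ≤ M := by
      have := hpow N hNR le_rfl
      rwa [Complex.ofReal_natCast] at this
    have h2 : ‖lsum g N - (R * Real.log N + C)‖ ≤ δ / (4 * M) := by
      have := hN1 N hNN1
      rw [dist_zero_right] at this
      exact this.le
    calc _ ≤ M * (δ / (4 * M)) := mul_le_mul h1 h2 (norm_nonneg _) hM0.le
      _ = δ / 4 := by field_simp
  have e2 : ‖∫ t in Set.Ioc (1 : ℝ) N, (t : ℂ) ^ (-w - 1) * E t‖ ≤
      M * ε * Real.log N + M * B := by
    rw [← intervalIntegral.integral_of_le hNR]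
    have hi : IntervalIntegrable (fun t : ℝ => M * ε * t⁻¹ + M * B * t ^ (-2 : ℝ)) volume 1 N := by
      refine ContinuousOn.intervalIntegrable ?_
      rw [Set.uIcc_of_le hNR]
      refine (continuousOn_const.mul ?_).add (continuousOn_const.mul ?_)
      · exact continuousOn_inv₀.mono fun t ht => by
          simp only [Set.mem_compl_iff, Set.mem_singleton_iff]; linarith [ht.1]
      · exact ContinuousOn.rpow_const continuousOn_id fun t ht => Or.inl (by
          have := ht.1
          change t ≠ 0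
          linarith)
    have h1 := intervalIntegral.norm_integral_le_of_norm_le hNR (μ := volume)
      (f := fun t : ℝ => (t : ℂ) ^ (-w - 1) * E t)
      (g := fun t : ℝ => M * ε * t⁻¹ + M * B * t ^ (-2 : ℝ)) (by
        refine Eventually.of_forall fun t ht => ?_
        have ht1 : 1 ≤ t := ht.1.le
        have ht0 : 0 < t := by linarith
        rw [norm_mul]
        calc _ ≤ M / t * (ε + B / t) :=
              mul_le_mul (hpow1 t ht1 ht.2) (hEb t ht1) (norm_nonneg _) (by positivity)
          _ = M * ε * t⁻¹ + M * B * t ^ (-2 : ℝ) := by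
              rw [Real.rpow_neg ht0.le, Real.rpow_two]
              field_simp) hi
    refine h1.trans ?_
    have hi1 : IntervalIntegrable (fun t : ℝ => M * ε * t⁻¹) volume 1 N := by
      refine ContinuousOn.intervalIntegrable ?_
      rw [Set.uIcc_of_le hNR]
      exact continuousOn_const.mul (continuousOn_inv₀.mono fun t ht => by
          simp only [Set.mem_compl_iff, Set.mem_singleton_iff]; linarith [ht.1])
    have hi2 : IntervalIntegrable (fun t : ℝ => M * B * t ^ (-2 : ℝ)) volume 1 N := by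
      refine ContinuousOn.intervalIntegrable ?_
      rw [Set.uIcc_of_le hNR]
      exact continuousOn_const.mul (ContinuousOn.rpow_const continuousOn_id fun t ht => Or.inl (by
          have := ht.1
          change t ≠ 0
          linarith))
    rw [intervalIntegral.integral_add hi1 hi2, intervalIntegral.integral_const_mul,
      intervalIntegral.integral_const_mul, integral_inv_of_pos one_pos hN0,
      integral_rpow (Or.inr ⟨by norm_num, by
        rw [Set.uIcc_of_le hNR]
        intro h0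
        linarith [h0.1]⟩)]
    rw [div_one, Real.one_rpow]
    have h2 : ((N : ℝ) ^ (-2 + 1 : ℝ) - 1) / (-2 + 1) ≤ 1 := by
      have h3 : 0 ≤ (N : ℝ) ^ (-2 + 1 : ℝ) := by positivity
      have h4 : (-2 + 1 : ℝ) = -1 := by norm_num
      rw [h4] at h3 ⊢
      linarith
    have h3 : M * B * (((N : ℝ) ^ (-2 + 1 : ℝ) - 1) / (-2 + 1)) ≤ M * B * 1 :=
      mul_le_mul_of_nonneg_left h2 (by positivity)
    linarith
  have e3 : ‖w * ∫ t in Set.Ioc (1 : ℝ) N, (t : ℂ) ^ (-w - 1) * E t‖ ≤ δ / 2 + δ / 4 := by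
    rw [norm_mul]
    have hw1 : ‖w‖ ≤ W / Real.log N := by
      rw [le_div_iff₀ hLpos]; exact hwN
    have h1 : ‖w‖ * ‖∫ t in Set.Ioc (1 : ℝ) N, (t : ℂ) ^ (-w - 1) * E t‖ ≤
        W / Real.log N * (M * ε * Real.log N + M * B) :=
      mul_le_mul hw1 e2 (norm_nonneg _) (by positivity)
    refine h1.trans ?_
    have h2 : W / Real.log N * (M * ε * Real.log N + M * B) =
        W * M * ε + W * M * B / Real.log N := by
      field_simp
    rw [h2]
    have h3 : W * M * ε ≤ δ / 2 := by
      rw [hε]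
      have : W * M * (δ / (2 * M * (1 + W))) = δ / 2 * (W / (1 + W)) := by
        field_simp
      rw [this]
      have h4 : W / (1 + W) ≤ 1 := by
        rw [div_le_one (by linarith)]; linarith
      have : δ / 2 * (W / (1 + W)) ≤ δ / 2 * 1 := mul_le_mul_of_nonneg_left h4 (by positivity)
      linarith
    have h4 : W * M * B / Real.log N ≤ δ / 4 := by
      rw [div_le_iff₀ hLpos]
      have h5 : 4 * W * M * B / δ ≤ Real.log N := by linarith
      rw [div_le_iff₀ hδ] at h5
      linarith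
    linarith
  calc _ ≤ ‖(N : ℂ) ^ (-w) * (lsum g N - (R * Real.log N + C))‖ +
        ‖w * ∫ t in Set.Ioc (1 : ℝ) N, (t : ℂ) ^ (-w - 1) * E t‖ := norm_add_le _ _
    _ ≤ δ / 4 + (δ / 2 + δ / 4) := add_le_add e1 e3
    _ = δ := by ring

end Pool.Agent.E8helper48.TP
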