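import Pool.Agent.E8helper48.TP.D
import Pool.Agent.Helper352.Kron

/-!
# Zeros by comparison, and Bohr's transfer
-/

set_option autoImplicit false

namespace Pool.Agent.E8helper48.TP

open Filter Topology Finset

/-- a function close to a linear one with a zero has a zero -/
lemma exists_zero (F : ℂ → ℂ) (hF : Differentiable ℂ F) (η₀ A : ℂ) (r δ : ℝ) (hr : 0 < r)
    (hδ : 0 < δ) (hδA : 2 * δ < ‖A‖ * r)
    (hclose : ∀ η : ℂ, ‖η - η₀‖ ≤ r → ‖F η - A * (η - η₀)‖ ≤ δ) :
    ∃ η : ℂ, ‖η - η₀‖ ≤ r ∧ F η = 0 := by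
  by_contra hcon
  push Not at hcon
  have hne : ∀ η ∈ closure (Metric.ball η₀ r), F η ≠ 0 := by
    intro η hη
    rw [closure_ball _ hr.ne', Metric.mem_closedBall, dist_eq_norm] at hη
    exact hcon η hη
  have hd : DiffContOnCl ℂ (fun η => (F η)⁻¹) (Metric.ball η₀ r) :=
    hF.diffContOnCl.inv hne
  have hfr : ∀ η ∈ frontier (Metric.ball η₀ r), ‖(F η)⁻¹‖ ≤ (‖A‖ * r - δ)⁻¹ := by
    intro η hη
    rw [frontier_ball _ hr.ne', Metric.mem_sphere, dist_eq_norm] at hη
    have h1 := hclose η hη.le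
    have h2 : ‖A * (η - η₀)‖ = ‖A‖ * r := by rw [norm_mul, hη]
    have h3 : ‖A‖ * r - δ ≤ ‖F η‖ := by
      have h4 := norm_sub_norm_le (A * (η - η₀)) (F η)
      rw [norm_sub_rev] at h1
      linarith
    rw [norm_inv]
    exact inv_anti₀ (by linarith) h3
  have h1 := Complex.norm_le_of_forall_mem_frontier_norm_le Metric.isBounded_ball hd hfr
    (subset_closure (Metric.mem_ball_self hr))
  rw [norm_inv] at h1
  have h2 := hclose η₀ (by simpa using hr.le)
  rw [sub_self, mul_zero, sub_zero] at h2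
  have h3 : 0 < ‖F η₀‖ := norm_pos_iff.2 (hcon η₀ (by simpa using hr.le))
  have h4 : ‖A‖ * r - δ ≤ ‖F η₀‖ := by
    have h5 : 0 < ‖A‖ * r - δ := by linarith
    exact (inv_le_inv₀ h3 h5).1 h1
  linarith

/-- the logarithms of different primes are independent -/
lemma log_primes {ι : Type} [Fintype ι] [DecidableEq ι] (p : ι → ℕ) (hp : ∀ b, (p b).Prime)
    (hinj : Function.Injective p) (n : ι → ℤ)
    (h : ∑ b, (n b : ℝ) * Real.log (p b) = 0) : n = 0 := by
  have h1 : ∑ b, (((n b).toNat : ℕ) : ℝ) * Real.log (p b) =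
      ∑ b, (((-n b).toNat : ℕ) : ℝ) * Real.log (p b) := by
    rw [← sub_eq_zero, ← Finset.sum_sub_distrib, ← h]
    refine Finset.sum_congr rfl fun b _ => ?_
    rw [← sub_mul]
    congr 1
    have h2 : (((n b).toNat : ℕ) : ℤ) - (((-n b).toNat : ℕ) : ℤ) = n b := by omega
    exact_mod_cast congrArg (Int.cast : ℤ → ℝ) h2
  have hpos : ∀ e : ι → ℕ, 0 < ∏ b, p b ^ e b := fun e =>
    Finset.prod_pos fun b _ => pow_pos (hp b).pos _
  have hlog : ∀ e : ι → ℕ, ∑ b, ((e b : ℕ) : ℝ) * Real.log (p b) =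
      Real.log ((∏ b, p b ^ e b : ℕ) : ℝ) := by
    intro e
    push_cast
    rw [Real.log_prod fun b _ => pow_ne_zero _ (Nat.cast_ne_zero.2 (hp b).ne_zero)]
    exact Finset.sum_congr rfl fun b _ => (Real.log_pow _ _).symm
  rw [hlog, hlog] at h1
  have h2 := Real.log_injOn_pos (Set.mem_Ioi.2 (Nat.cast_pos.2 (hpos _)))
    (Set.mem_Ioi.2 (Nat.cast_pos.2 (hpos _))) h1
  have h3 : ∏ b, p b ^ (n b).toNat = ∏ b, p b ^ (-n b).toNat := by exact_mod_cast h2
  have hfac : ∀ (e : ι → ℕ) (b : ι), (∏ b, p b ^ e b).factorization (p b) = e b := by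
    intro e b
    rw [Nat.factorization_prod fun b _ => pow_ne_zero _ (hp b).ne_zero, Finsupp.finsetSum_apply,
      Finset.sum_eq_single b]
    · rw [Nat.factorization_pow, Finsupp.smul_apply, (hp b).factorization_self, smul_eq_mul, mul_one]
    · intro b' _ hb'
      rw [Nat.factorization_pow, Finsupp.smul_apply, (hp b').factorization, Finsupp.single_apply,
        if_neg fun h => hb' (hinj h), smul_zero]
    · intro h
      exact absurd (Finset.mem_univ _) h
  funext b
  have h4 := hfac (fun b => (n b).toNat) b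
  rw [h3, hfac (fun b => (-n b).toNat) b] at h4
  simp only [Pi.zero_apply]
  omega

/-- simultaneous approximation of unimodular numbers at the primes up to `N` -/
lemma approx_primes (N : ℕ) (u : ℕ → ℂ) (hu : ∀ p, ‖u p‖ = 1) (ε : ℝ) (hε : 0 < ε) :
    ∃ t : ℝ, ∀ p : ℕ, p.Prime → p ≤ N → ‖(p : ℂ) ^ (-(t * Complex.I)) - u p‖ ≤ ε := by
  classical
  let ι : Type := {p : ℕ // p.Prime ∧ p ≤ N}
  have hfin : Finite ι := Set.Finite.subset (Set.finite_Iic N) (fun p hp => hp.2)
  have : Fintype ι := Fintype.ofFinite ι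
  have hpi := Real.pi_pos
  set ω : ι → ℝ := fun p => -(Real.log (p.1 : ℕ)) / (2 * Real.pi) with hω
  set β : ι → ℝ := fun p => Complex.arg (u p.1) / (2 * Real.pi) with hβ
  obtain ⟨t, -, ht⟩ := Pool.Agent.Helper352.kronecker ω β (by
    intro c hc
    have h1 : ∑ b, (c b : ℝ) * Real.log ((fun b : ι => b.1) b : ℕ) = 0 := by
      have h2 : ∑ b, (c b : ℝ) * Real.log ((fun b : ι => b.1) b : ℕ) =
          -(2 * Real.pi) * ∑ i, (c i : ℝ) * ω i := by
        rw [Finset.mul_sum]
        refine Finset.sum_congr rfl fun b _ => ?_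
        simp only [hω]
        field_simp
      rw [h2, hc, mul_zero]
    have h3 := log_primes (fun b : ι => b.1) (fun b => b.2.1) (fun a b h => Subtype.ext h) c h1
    refine ⟨0, ?_⟩
    rw [h3]
    simp) (ε / (2 * Real.pi)) (by positivity) 0
  refine ⟨t, fun p hp hpN => ?_⟩
  obtain ⟨n, hn⟩ := ht ⟨p, hp, hpN⟩
  set x : ℝ := t * ω ⟨p, hp, hpN⟩ - β ⟨p, hp, hpN⟩ - n with hx
  have hpC : (p : ℂ) ≠ 0 := by exact_mod_cast hp.ne_zero
  have h1 : (p : ℂ) ^ (-(t * Complex.I)) = Complex.exp ((2 * Real.pi * x : ℝ) * Complex.I) * u p := by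
    have hup : u p = Complex.exp ((Complex.arg (u p) : ℝ) * Complex.I) := by
      have := Complex.norm_mul_exp_arg_mul_I (u p)
      rw [hu, Complex.ofReal_one, one_mul] at this
      exact this.symm
    rw [hup, ← Complex.exp_add, Complex.cpow_def_of_ne_zero hpC, ← Complex.natCast_log,
      Complex.exp_eq_exp_iff_exists_int]
    refine ⟨n, ?_⟩
    rw [hx]
    simp only [hω, hβ]
    push_cast
    have hpiC : (Real.pi : ℂ) ≠ 0 := by exact_mod_cast hpi.ne'
    field_simp
    have harg : ((Complex.exp ((Complex.arg (u p) : ℝ) * Complex.I)).arg : ℂ) =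
        (Complex.arg (u p) : ℝ) := by
      rw [← hup]
    ring
  rw [h1]
  have h2 : Complex.exp ((2 * Real.pi * x : ℝ) * Complex.I) * u p - u p =
      (Complex.exp ((2 * Real.pi * x : ℝ) * Complex.I) - 1) * u p := by ring
  rw [h2, norm_mul, hu, mul_one]
  have h3 := Real.norm_exp_I_mul_ofReal_sub_one_le (x := 2 * Real.pi * x)
  rw [mul_comm] at h3
  refine h3.trans ?_
  rw [Real.norm_eq_abs, abs_mul, abs_of_pos (by positivity : 0 < 2 * Real.pi)]
  have h4 : |x| ≤ ε / (2 * Real.pi) := hn.le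
  calc 2 * Real.pi * |x| ≤ 2 * Real.pi * (ε / (2 * Real.pi)) := by gcongr
    _ = ε := by field_simp

end Pool.Agent.E8helper48.TP
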