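import Pool.Agent.E8helper48.TP.E

/-!
# Every Dirichlet character: partial sums with zeros to the right of `1`
-/

set_option autoImplicit false

namespace Pool.Agent.E8helper48.TP

open Filter Topology Finset

lemma gT_one (k p : ℕ) : gT k p 1 = 1 := by
  have h : ∀ q ∈ k.primeFactors, ¬ q ∣ 1 := fun q hq h =>
    (Nat.prime_of_mem_primeFactors hq).one_lt.ne' (Nat.dvd_one.1 h)
  unfold gT gS
  rw [if_pos ⟨one_ne_zero, h⟩, padicValNat_one_right, pow_zero, mul_one]

lemma gT_mul (k p : ℕ) (hp : p.Prime) (m n : ℕ) (hm : m ≠ 0) (hn : n ≠ 0) :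
    gT k p (m * n) = gT k p m * gT k p n := by
  classical
  have : Fact p.Prime := ⟨hp⟩
  unfold gT
  rw [padicValNat.mul hm hn, pow_add]
  have h : gS k.primeFactors (m * n) = gS k.primeFactors m * gS k.primeFactors n := by
    unfold gS
    by_cases h1 : ∀ q ∈ k.primeFactors, ¬ q ∣ m
    · by_cases h2 : ∀ q ∈ k.primeFactors, ¬ q ∣ n
      · have h3 : m * n ≠ 0 ∧ ∀ q ∈ k.primeFactors, ¬ q ∣ m * n := by
          refine ⟨mul_ne_zero hm hn, ?_⟩
          intro q hq hd
          rcases (Nat.prime_of_mem_primeFactors hq).dvd_mul.1 hd with h | h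
          · exact h1 q hq h
          · exact h2 q hq h
        rw [if_pos h3, if_pos ⟨hm, h1⟩, if_pos ⟨hn, h2⟩, mul_one]
      · rw [if_neg (c := n ≠ 0 ∧ _) (fun h => h2 h.2), mul_zero, if_neg]
        rintro ⟨-, h⟩
        exact h2 fun q hq hd => h q hq (hd.mul_left _)
    · rw [if_neg (c := m ≠ 0 ∧ _) (fun h => h1 h.2), zero_mul, if_neg]
      rintro ⟨-, h⟩
      exact h1 fun q hq hd => h q hq (hd.mul_right _)
  rw [h]
  ring

lemma gT_of_dvd (k p q : ℕ) (hk : k ≠ 0) (hq : q.Prime) (hqk : q ∣ k) : gT k p q = 0 := by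
  unfold gT gS
  rw [if_neg, zero_mul]
  rintro ⟨-, h⟩
  exact h q (Nat.mem_primeFactors.2 ⟨hq, hqk, hk⟩) dvd_rfl

lemma norm_gT_of_not_dvd (k p q : ℕ) (hq : q.Prime) (hqk : ¬ q ∣ k) : ‖gT k p q‖ = 1 := by
  unfold gT gS
  rw [if_pos, one_mul, norm_pow, Complex.norm_I, one_pow]
  refine ⟨hq.ne_zero, fun r hr h => ?_⟩
  have hrp := Nat.prime_of_mem_primeFactors hr
  have := (Nat.prime_dvd_prime_iff_eq hrp hq).1 h
  exact hqk (this ▸ Nat.dvd_of_mem_primeFactors hr)

lemma chi_of_dvd {k : ℕ} (χ : DirichletCharacter ℂ k) (q : ℕ) (hq : q.Prime) (hqk : q ∣ k) :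
    χ (q : ZMod k) = 0 := by
  apply MulChar.map_nonunit
  intro h
  rw [ZMod.isUnit_iff_coprime] at h
  have := (hq.coprime_iff_not_dvd).1 h
  exact this hqk

lemma norm_chi_of_not_dvd {k : ℕ} [NeZero k] (χ : DirichletCharacter ℂ k) (q : ℕ) (hq : q.Prime)
    (hqk : ¬ q ∣ k) : ‖χ (q : ZMod k)‖ = 1 := by
  have hc : Nat.Coprime q k := (hq.coprime_iff_not_dvd).2 hqk
  have h := DirichletCharacter.unit_norm_eq_one χ (ZMod.unitOfCoprime q hc)
  rwa [ZMod.coe_unitOfCoprime] at h

/-- simultaneous approximation of the twisted function by vertical translates -/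
lemma close_all {k : ℕ} [NeZero k] (χ : DirichletCharacter ℂ k) (p : ℕ) (hp : p.Prime)
    (N : ℕ) (ε : ℝ) (hε : 0 < ε) :
    ∃ t : ℝ, ∀ n : ℕ, 1 ≤ n → n ≤ N →
      ‖χ (n : ZMod k) * (n : ℂ) ^ (-(t * Complex.I)) - gT k p n‖ ≤ n * ε := by
  classical
  set u : ℕ → ℂ := fun q => if q.Prime ∧ ¬ q ∣ k then gT k p q / χ (q : ZMod k) else 1 with hu
  obtain ⟨t, ht⟩ := approx_primes N u (by
    intro q
    rw [hu]
    by_cases h : q.Prime ∧ ¬ q ∣ k
    · simp only [if_pos h]
      rw [norm_div, norm_gT_of_not_dvd k p q h.1 h.2, norm_chi_of_not_dvd χ q h.1 h.2, div_one]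
    · simp only [if_neg h, norm_one]) ε hε
  refine ⟨t, ?_⟩
  have hprime : ∀ q : ℕ, q.Prime → q ≤ N →
      ‖χ (q : ZMod k) * (q : ℂ) ^ (-(t * Complex.I)) - gT k p q‖ ≤ ε := by
    intro q hq hqN
    by_cases hqk : q ∣ k
    · rw [chi_of_dvd χ q hq hqk, gT_of_dvd k p q (NeZero.ne k) hq hqk, zero_mul, sub_zero, norm_zero]
      exact hε.le
    · have h1 := ht q hq hqN
      rw [hu] at h1
      simp only [if_pos (⟨hq, hqk⟩ : q.Prime ∧ ¬ q ∣ k)] at h1
      have h2 := norm_chi_of_not_dvd χ q hq hqk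
      have h3 : χ (q : ZMod k) ≠ 0 := by
        intro h; rw [h, norm_zero] at h2; exact zero_ne_one h2
      have h4 : χ (q : ZMod k) * (q : ℂ) ^ (-(t * Complex.I)) - gT k p q =
          χ (q : ZMod k) * ((q : ℂ) ^ (-(t * Complex.I)) - gT k p q / χ (q : ZMod k)) := by
        field_simp
      rw [h4, norm_mul, h2, one_mul]
      exact h1
  intro n
  induction n using Nat.strong_induction_on with
  | _ n ih =>
    intro hn1 hnN
    rcases eq_or_ne n 1 with rfl | hn
    · rw [gT_one]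
      simp only [Nat.cast_one, map_one, Complex.one_cpow, mul_one, sub_self, norm_zero, one_mul]
      exact hε.le
    · set q := n.minFac with hq
      have hqp : q.Prime := Nat.minFac_prime hn
      obtain ⟨m, hm⟩ := Nat.minFac_dvd n
      rw [← hq] at hm
      have hm0 : m ≠ 0 := by
        rintro rfl
        omega
      have hm1 : 1 ≤ m := Nat.one_le_iff_ne_zero.2 hm0
      have hq2 := hqp.two_le
      have hmn : m < n := by
        rw [hm]
        nlinarith
      have hqn : q ≤ N := (Nat.minFac_le (by omega)).trans hnN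
      have h1 := ih m hmn hm1 (by omega)
      have h2 := hprime q hqp hqn
      have h3 : χ (n : ZMod k) * (n : ℂ) ^ (-(t * Complex.I)) =
          (χ (q : ZMod k) * (q : ℂ) ^ (-(t * Complex.I))) *
            (χ (m : ZMod k) * (m : ℂ) ^ (-(t * Complex.I))) := by
        rw [hm]
        push_cast
        rw [map_mul, Complex.natCast_mul_natCast_cpow]
        ring
      have h4 : gT k p n = gT k p q * gT k p m := by
        rw [hm]
        exact gT_mul k p hp q m hqp.ne_zero hm0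
      have h5 : ‖χ (m : ZMod k) * (m : ℂ) ^ (-(t * Complex.I))‖ ≤ 1 := by
        rw [norm_mul]
        have e1 : ‖χ (m : ZMod k)‖ ≤ 1 := DirichletCharacter.norm_le_one χ _
        have e2 : ‖(m : ℂ) ^ (-(t * Complex.I))‖ = 1 := by
          rw [Complex.norm_natCast_cpow_of_pos (by omega)]
          simp
        rw [e2, mul_one]
        exact e1
      rw [h3, h4]
      have h6 : (χ (q : ZMod k) * (q : ℂ) ^ (-(t * Complex.I))) *
            (χ (m : ZMod k) * (m : ℂ) ^ (-(t * Complex.I))) - gT k p q * gT k p m =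
          (χ (q : ZMod k) * (q : ℂ) ^ (-(t * Complex.I)) - gT k p q) *
            (χ (m : ZMod k) * (m : ℂ) ^ (-(t * Complex.I))) +
          gT k p q * (χ (m : ZMod k) * (m : ℂ) ^ (-(t * Complex.I)) - gT k p m) := by ring
      rw [h6]
      refine (norm_add_le _ _).trans ?_
      rw [norm_mul (_ - _), norm_mul (gT k p q)]
      have h7 : ‖χ (q : ZMod k) * (q : ℂ) ^ (-(t * Complex.I)) - gT k p q‖ *
          ‖χ (m : ZMod k) * (m : ℂ) ^ (-(t * Complex.I))‖ ≤ ε * 1 :=
        mul_le_mul h2 h5 (norm_nonneg _) hε.le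
      have h8 : ‖gT k p q‖ * ‖χ (m : ZMod k) * (m : ℂ) ^ (-(t * Complex.I)) - gT k p m‖ ≤
          1 * (m * ε) := mul_le_mul (norm_gT_le _ _ _) h1 (norm_nonneg _) zero_le_one
      have h9 : (1 : ℝ) + m ≤ n := by
        have : 1 + m ≤ n := by omega
        exact_mod_cast this
      nlinarith

/-- the partial sums of the L-series -/
noncomputable def PS {k : ℕ} (χ : DirichletCharacter ℂ k) (N : ℕ) (s : ℂ) : ℂ :=
  ∑ n ∈ Icc 1 N, χ (n : ZMod k) * (n : ℂ) ^ (-s)

lemma differentiable_PS {k : ℕ} (χ : DirichletCharacter ℂ k) (N : ℕ) :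
    Differentiable ℂ (PS χ N) := by
  unfold PS
  refine Differentiable.fun_sum fun n hn => ?_
  have hn1 : n ≠ 0 := by
    have := (Finset.mem_Icc.1 hn).1
    omega
  refine (differentiable_const _).mul ?_
  exact (differentiable_neg).const_cpow (Or.inl (by exact_mod_cast hn1))

lemma PS_close {k : ℕ} [NeZero k] (χ : DirichletCharacter ℂ k) (p : ℕ) (hp : p.Prime)
    (N : ℕ) (hN : 1 ≤ N) (W δ : ℝ) (hδ : 0 < δ) :
    ∃ t : ℝ, ∀ w : ℂ, ‖w‖ * Real.log N ≤ W →
      ‖PS χ N (1 + w + t * Complex.I) - TN (gT k p) N w‖ ≤ δ := by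
  have hN0 : (0 : ℝ) < N := by exact_mod_cast hN
  have hM : 0 < Real.exp W := Real.exp_pos _
  obtain ⟨t, ht⟩ := close_all χ p hp N (δ / (N * Real.exp W)) (by positivity)
  refine ⟨t, fun w hw => ?_⟩
  have h1 : TN (gT k p) N w = ∑ n ∈ Icc 1 N, (n : ℂ) ^ (-w) * (gT k p n / n) := by
    unfold TN
    symm
    apply Finset.sum_subset (Finset.Icc_subset_Icc (by norm_num) le_rfl)
    intro n hn hn'
    have : n = 0 := by
      simp only [Finset.mem_Icc] at hn hn'
      omega
    simp [this]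
  rw [h1]
  unfold PS
  rw [← Finset.sum_sub_distrib]
  refine (norm_sum_le _ _).trans ?_
  have h2 : ∀ n ∈ Icc 1 N, ‖χ (n : ZMod k) * (n : ℂ) ^ (-(1 + w + t * Complex.I)) -
      (n : ℂ) ^ (-w) * (gT k p n / n)‖ ≤ δ / N := by
    intro n hn
    obtain ⟨hn1, hnN⟩ := Finset.mem_Icc.1 hn
    have hn0 : (0 : ℝ) < n := by exact_mod_cast hn1
    have hnC : (n : ℂ) ≠ 0 := by exact_mod_cast hn0.ne'
    have e1 : (n : ℂ) ^ (-(1 + w + t * Complex.I)) =
        (n : ℂ) ^ (-w) * ((n : ℂ) ^ (-(t * Complex.I)) / n) := by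
      rw [show -(1 + w + t * Complex.I) = -w + (-(t * Complex.I) - 1) by ring,
        Complex.cpow_add _ _ hnC, Complex.cpow_sub _ _ hnC, Complex.cpow_one]
    have e2 : χ (n : ZMod k) * (n : ℂ) ^ (-(1 + w + t * Complex.I)) -
        (n : ℂ) ^ (-w) * (gT k p n / n) = (n : ℂ) ^ (-w) *
        ((χ (n : ZMod k) * (n : ℂ) ^ (-(t * Complex.I)) - gT k p n) / n) := by
      rw [e1]
      ring
    rw [e2, norm_mul, norm_div, Complex.norm_natCast]
    have e3 : ‖(n : ℂ) ^ (-w)‖ ≤ Real.exp W := by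
      rw [Complex.norm_natCast_cpow_of_pos (by omega), Real.rpow_def_of_pos hn0]
      apply Real.exp_le_exp.2
      have h1 : (-w).re ≤ ‖w‖ := by
        rw [← norm_neg w]
        exact (le_abs_self _).trans (Complex.abs_re_le_norm _)
      have h3 : 0 ≤ Real.log n := Real.log_nonneg (by exact_mod_cast hn1)
      have h4 : Real.log n ≤ Real.log N := Real.log_le_log hn0 (by exact_mod_cast hnN)
      calc Real.log n * (-w).re ≤ Real.log n * ‖w‖ := mul_le_mul_of_nonneg_left h1 h3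
        _ ≤ Real.log N * ‖w‖ := mul_le_mul_of_nonneg_right h4 (norm_nonneg _)
        _ ≤ W := by rw [mul_comm]; exact hw
    have e4 : ‖χ (n : ZMod k) * (n : ℂ) ^ (-(t * Complex.I)) - gT k p n‖ / n ≤
        δ / (N * Real.exp W) := by
      rw [div_le_iff₀ hn0, mul_comm (δ / _)]
      exact ht n hn1 hnN
    calc _ ≤ Real.exp W * (δ / (N * Real.exp W)) :=
          mul_le_mul e3 e4 (by positivity) hM.le
      _ = δ / N := by field_simp
  refine (Finset.sum_le_sum h2).trans ?_
  rw [Finset.sum_const, Nat.card_Icc, Nat.add_sub_cancel, nsmul_eq_mul]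
  apply le_of_eq
  field_simp

/-- every large partial sum of the L-series of a Dirichlet character has a zero with real part
greater than one -/
theorem zeros {k : ℕ} [NeZero k] (χ : DirichletCharacter ℂ k) :
    ∃ N₀ : ℕ, ∀ N : ℕ, N₀ ≤ N → ∃ s : ℂ, 1 < s.re ∧ PS χ N s = 0 := by
  obtain ⟨p, hpk, hp⟩ := Nat.exists_infinite_primes (k + 1)
  have hk : k ≠ 0 := NeZero.ne k
  have hnd : ¬ p ∣ k := fun h => by
    have := Nat.le_of_dvd (Nat.pos_of_ne_zero hk) h
    omega
  obtain ⟨R, τ, hR, hτ, hasy⟩ := asy_gT k p hk hp hnd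
  have hpi := Real.pi_pos
  have hpi3 := Real.pi_gt_three
  set z0 : ℂ := -(2 * Real.pi * Complex.I) with hz0
  have hz0n : ‖z0‖ = 2 * Real.pi := by
    rw [hz0, norm_neg, norm_mul, Complex.norm_I, mul_one, norm_mul, Complex.norm_real,
      Real.norm_of_nonneg hpi.le]
    norm_num
  have hz00 : z0 ≠ 0 := by
    intro h; rw [h, norm_zero] at hz0n; linarith
  have hz0re : z0.re = 0 := by
    rw [hz0]; simp
  set η₀ : ℂ := -(τ * z0) with hη₀
  have hη₀re : η₀.re = -(2 * Real.pi * τ.im) := by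
    rw [hη₀, hz0]
    simp
    ring
  set r : ℝ := -(Real.pi * τ.im) with hr
  have hr0 : 0 < r := by
    rw [hr]
    have := mul_pos hpi (neg_pos.2 hτ)
    linarith
  set A : ℂ := R / z0 with hA
  have hAn : 0 < ‖A‖ := norm_pos_iff.2 (div_ne_zero hR hz00)
  set K : ℝ := ‖η₀‖ + r with hK
  have hK0 : 0 < K := by positivity
  set W : ℝ := 2 * Real.pi + K with hW
  set δ : ℝ := ‖A‖ * r / 9 with hδ
  have hδ0 : 0 < δ := by positivity
  obtain ⟨N1, hN1⟩ := uniform_error (gT k p) (norm_gT_le k p) R (R * τ) hasy W (by positivity) δ hδ0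
  obtain ⟨N2, hN2⟩ := ((tendsto_atTop.1 (Real.tendsto_log_atTop.comp tendsto_natCast_atTop_atTop)
    (1 + K + ‖R‖ * K ^ 2 / δ)).exists_forall_of_atTop)
  refine ⟨max (max N1 N2) 1, fun N hN => ?_⟩
  have hNN1 : N1 ≤ N := (le_max_left _ _).trans ((le_max_left _ _).trans hN)
  have hNN2 : N2 ≤ N := (le_max_right _ _).trans ((le_max_left _ _).trans hN)
  have hN1' : 1 ≤ N := (le_max_right _ _).trans hN
  have hL : 1 + K + ‖R‖ * K ^ 2 / δ ≤ Real.log N := hN2 N hNN2
  set L : ℝ := Real.log N with hLdef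
  have hdd : 0 ≤ ‖R‖ * K ^ 2 / δ := by positivity
  have hL1 : 1 ≤ L := by linarith
  have hLK : K ≤ L := by linarith
  have hL0 : 0 < L := by linarith
  have hLC : (L : ℂ) ≠ 0 := by exact_mod_cast hL0.ne'
  have hNC : (N : ℂ) ≠ 0 := by
    have : N ≠ 0 := by omega
    exact_mod_cast this
  obtain ⟨t, ht⟩ := PS_close χ p hp N hN1' W δ hδ0
  set w : ℂ → ℂ := fun η => (z0 + η / L) / L with hw
  have hF : Differentiable ℂ (fun η => PS χ N (1 + w η + t * Complex.I)) := by
    refine (differentiable_PS χ N).comp ?_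
    rw [hw]
    fun_prop
  obtain ⟨η, hη, hzero⟩ := exists_zero (fun η => PS χ N (1 + w η + t * Complex.I)) hF η₀ A r
    (3 * δ) hr0 (by positivity) (by rw [hδ]; have := mul_pos hAn hr0; linarith) (by
    intro η hη
    have hηK : ‖η‖ ≤ K := by
      have := norm_sub_norm_le η η₀
      linarith
    set u : ℂ := η / L with hu
    have hun : ‖u‖ ≤ K / L := by
      rw [hu, norm_div, Complex.norm_real, Real.norm_of_nonneg hL0.le]
      exact div_le_div_of_nonneg_right hηK hL0.le
    have hu1 : ‖u‖ ≤ 1 := hun.trans (by rw [div_le_one hL0]; exact hLK)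
    have hwη : w η = (z0 + u) / L := rfl
    have hzu : 5 ≤ ‖z0 + u‖ := by
      have h1 := norm_sub_norm_le z0 (-u)
      rw [sub_neg_eq_add, norm_neg u, hz0n] at h1
      linarith
    have hzu0 : z0 + u ≠ 0 := by
      intro h; rw [h, norm_zero] at hzu; linarith
    have hw0 : w η ≠ 0 := by
      rw [hwη]; exact div_ne_zero hzu0 hLC
    have hwW : ‖w η‖ * Real.log N ≤ W := by
      rw [hwη, norm_div, Complex.norm_real, Real.norm_of_nonneg hL0.le, ← hLdef,
        div_mul_cancel₀ _ hL0.ne']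
      calc ‖z0 + u‖ ≤ ‖z0‖ + ‖u‖ := norm_add_le _ _
        _ ≤ 2 * Real.pi + K := by
          rw [hz0n]
          have : K / L ≤ K := div_le_self hK0.le hL1
          linarith
    have e1 := ht (w η) hwW
    have e2 := hN1 N hNN1 (w η) hw0 hwW
    have hpowN : (N : ℂ) ^ (-(w η)) = Complex.exp (-u) := by
      rw [Complex.cpow_def_of_ne_zero hNC, ← Complex.natCast_log, ← hLdef, hwη]
      have h1 : (L : ℂ) * (-((z0 + u) / L)) = -u + (2 * Real.pi * Complex.I) := by
        rw [hz0]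
        field_simp
        ring
      rw [h1, Complex.exp_add, Complex.exp_two_pi_mul_I, mul_one]
    have e3 : ‖R * (1 - (N : ℂ) ^ (-(w η))) / (w η) + R * τ - A * (η - η₀)‖ ≤ δ := by
      have hv : ‖Complex.exp (-u) - 1 - -u‖ ≤ ‖u‖ ^ 2 := by
        have := Complex.norm_exp_sub_one_sub_id_le (x := -u) (by rwa [norm_neg])
        rwa [norm_neg] at this
      set v : ℂ := Complex.exp (-u) - 1 - -u with hvdef
      have hηu : η = L * u := by
        rw [hu]; field_simp
      have h1 : R * (1 - (N : ℂ) ^ (-(w η))) / (w η) + R * τ - A * (η - η₀) =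
          R * (-(L * v) / (z0 + u) - η * u / (z0 * (z0 + u))) := by
        rw [hpowN, hwη, hA, hη₀, hηu]
        have : Complex.exp (-u) = v + 1 - u := by rw [hvdef]; ring
        rw [this]
        field_simp
        ring
      rw [h1, norm_mul]
      have h2 : ‖-(L * v) / (z0 + u) - η * u / (z0 * (z0 + u))‖ ≤ K ^ 2 / L := by
        refine (norm_sub_le _ _).trans ?_
        rw [norm_div, norm_neg, norm_mul, norm_div, norm_mul, norm_mul, hz0n, Complex.norm_real,
          Real.norm_of_nonneg hL0.le]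
        have h3 : L * ‖v‖ / ‖z0 + u‖ ≤ L * (K / L) ^ 2 / 5 := by
          have h4 : ‖v‖ ≤ (K / L) ^ 2 := hv.trans (pow_le_pow_left₀ (norm_nonneg _) hun 2)
          gcongr
        have h5 : ‖η‖ * ‖u‖ / (2 * Real.pi * ‖z0 + u‖) ≤ K * (K / L) / (6 * 5) := by
          have : 6 ≤ 2 * Real.pi := by linarith
          gcongr
        have h6 : L * (K / L) ^ 2 / 5 + K * (K / L) / (6 * 5) ≤ K ^ 2 / L := by
          have h7 : L * (K / L) ^ 2 = K ^ 2 / L := by field_simp
          have h8 : K * (K / L) = K ^ 2 / L := by ring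
          rw [h7, h8]
          have : 0 ≤ K ^ 2 / L := by positivity
          linarith
        linarith
      calc ‖R‖ * ‖-(L * v) / (z0 + u) - η * u / (z0 * (z0 + u))‖ ≤ ‖R‖ * (K ^ 2 / L) :=
            mul_le_mul_of_nonneg_left h2 (norm_nonneg _)
        _ = ‖R‖ * K ^ 2 / L := by ring
        _ ≤ δ := by
            rw [div_le_iff₀ hL0]
            have h3 : ‖R‖ * K ^ 2 / δ ≤ L := by linarith
            rw [div_le_iff₀ hδ0] at h3
            linarith
    have e4 : PS χ N (1 + w η + t * Complex.I) - A * (η - η₀) =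
        (PS χ N (1 + w η + t * Complex.I) - TN (gT k p) N (w η)) +
        (TN (gT k p) N (w η) - (R * (1 - (N : ℂ) ^ (-(w η))) / (w η) + R * τ)) +
        (R * (1 - (N : ℂ) ^ (-(w η))) / (w η) + R * τ - A * (η - η₀)) := by ring
    change ‖PS χ N (1 + w η + t * Complex.I) - A * (η - η₀)‖ ≤ 3 * δ
    rw [e4]
    refine (norm_add₃_le).trans ?_
    linarith)
  refine ⟨1 + w η + t * Complex.I, ?_, hzero⟩
  have h1 : (1 + w η + t * Complex.I).re = 1 + η.re / L ^ 2 := by
    have h2 : w η = z0 / L + η / ((L ^ 2 : ℝ) : ℂ) := by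
      rw [hw]
      push_cast
      field_simp
    rw [h2, Complex.add_re, Complex.add_re, Complex.add_re, Complex.div_ofReal_re,
      Complex.div_ofReal_re, hz0re, Complex.one_re, Complex.re_ofReal_mul, Complex.I_re]
    ring
  rw [h1]
  have h2 : |(η - η₀).re| ≤ r := (Complex.abs_re_le_norm _).trans hη
  rw [Complex.sub_re] at h2
  have h3 := (abs_le.1 h2).1
  have h4 : η₀.re = 2 * r := by
    rw [hη₀re, hr]; ring
  have h5 : 0 < η.re := by linarith
  have : 0 < η.re / L ^ 2 := by positivity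
  linarith

end Pool.Agent.E8helper48.TP
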